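import Pool.Agent.Helper77.SO.St

set_option autoImplicit false

namespace Pool.Agent.Helper69.SO.CC

open Equiv Equiv.Perm Pool.Agent.Helper35.PM Pool.Agent.Helper77.HY Pool.Agent.Helper77.OF4 Pool.Agent.Helper77.SO

theorem fiber_card {D : Type} [Fintype D] [DecidableEq D] (f : Perm D)
    [DecidableEq (Quotient (SameCycle.setoid f))] (d : D) :
    (Finset.univ.filter (fun a : D => Quotient.mk (SameCycle.setoid f) a =
      Quotient.mk (SameCycle.setoid f) d)).card = Function.minimalPeriod f d := by
  have hpos : 0 < Function.minimalPeriod f d :=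
    Function.minimalPeriod_pos_of_mem_periodicPts (f.injective.mem_periodicPts d)
  have himg : Finset.univ.filter (fun a : D => Quotient.mk (SameCycle.setoid f) a =
      Quotient.mk (SameCycle.setoid f) d) =
      (Finset.range (Function.minimalPeriod f d)).image (fun k => (f ^ k) d) := by
    ext a
    simp only [Finset.mem_filter, Finset.mem_univ, true_and, Finset.mem_image, Finset.mem_range]
    constructor
    · intro h
      have h1 : f.SameCycle a d := Quotient.exact h
      obtain ⟨i, hi⟩ := h1.symm
      have h2 : f ^ (i % (Function.minimalPeriod (f • ·) d : ℤ)) • d = f ^ i • d :=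
        MulAction.zpow_smul_mod_minimalPeriod (a := f) (b := d) i
      have h3 : Function.minimalPeriod (f • ·) d = Function.minimalPeriod f d := rfl
      rw [h3, Perm.smul_def, Perm.smul_def, hi] at h2
      have h4 : 0 ≤ i % (Function.minimalPeriod f d : ℤ) :=
        Int.emod_nonneg _ (by exact_mod_cast hpos.ne')
      have h5 : i % (Function.minimalPeriod f d : ℤ) < (Function.minimalPeriod f d : ℤ) :=
        Int.emod_lt_of_pos _ (by exact_mod_cast hpos)
      obtain ⟨k, hk⟩ := Int.eq_ofNat_of_zero_le h4
      rw [hk] at h2 h5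
      exact ⟨k, by exact_mod_cast h5, by simpa using h2⟩
    · rintro ⟨k, -, rfl⟩
      apply Quotient.sound
      show f.SameCycle ((f ^ k) d) d
      exact (sameCycle_pow_left).2 (SameCycle.refl _ _)
  rw [himg, Finset.card_image_of_injOn, Finset.card_range]
  intro i hi j hj hij
  have hi' : i < Function.minimalPeriod f d := by simpa using hi
  have hj' : j < Function.minimalPeriod f d := by simpa using hj
  have hij' : (f)^[i] d = (f)^[j] d := by
    rw [Equiv.Perm.iterate_eq_pow, Equiv.Perm.iterate_eq_pow]
    exact hij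
  exact Function.iterate_injOn_Iio_minimalPeriod hi' hj' hij'

theorem main : StCc := by
  intro D _ _ φ N ℓ hN h4 hℓ
  classical
  have : Fintype (Quotient (SameCycle.setoid φ)) := Fintype.ofFinite _
  set mk : D → Quotient (SameCycle.setoid φ) := fun d => Quotient.mk (SameCycle.setoid φ) d with hmk
  set len : Quotient (SameCycle.setoid φ) → ℕ := fun c =>
    (Finset.univ.filter (fun a : D => Quotient.mk (SameCycle.setoid φ) a = c)).card with hlen
  have hlend : ∀ d : D, len (mk d) = Function.minimalPeriod φ d := fun d => fiber_card φ d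
  have hsum : ∑ c, len c = Fintype.card D := by
    rw [← Finset.card_univ]
    exact (Finset.card_eq_sum_card_fiberwise (fun d _ => Finset.mem_univ _)).symm
  have hf : Nat.card (Quotient (SameCycle.setoid φ)) =
      Fintype.card (Quotient (SameCycle.setoid φ)) := Nat.card_eq_fintype_card
  have hinj : Set.InjOn mk (N : Set D) := by
    intro a ha b hb hab
    exact hN a ha b hb (Quotient.exact hab)
  have h1 : ∑ c ∈ N.image mk, ((len c : ℤ) - 4) ≤ ∑ c, ((len c : ℤ) - 4) := by
    refine Finset.sum_le_sum_of_subset_of_nonneg (Finset.subset_univ _) ?_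
    intro c _ hc
    obtain ⟨d, rfl⟩ := Quotient.exists_rep c
    have h2 : 4 ≤ Function.minimalPeriod φ d := by
      refine h4 d (fun a ha hs => hc ?_)
      exact Finset.mem_image.2 ⟨a, ha, Quotient.sound hs⟩
    have h3 := hlend d
    have h5 : len (Quotient.mk (SameCycle.setoid φ) d) = Function.minimalPeriod φ d := h3
    have h6 : (4 : ℤ) ≤ (len (Quotient.mk (SameCycle.setoid φ) d) : ℤ) := by
      rw [h5]; exact_mod_cast h2
    have h7 : (4 : ℤ) ≤ (len ⟦d⟧ : ℤ) := h6
    linarith
  have h2 : ∑ c ∈ N.image mk, ((len c : ℤ) - 4) = ∑ a ∈ N, ((len (mk a) : ℤ) - 4) :=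
    Finset.sum_image hinj
  have h3 : ∑ a ∈ N, (ℓ a - 4) ≤ ∑ a ∈ N, ((len (mk a) : ℤ) - 4) := by
    refine Finset.sum_le_sum (fun a ha => ?_)
    rw [hlend a]
    linarith [hℓ a ha]
  have h5 : ∑ c : Quotient (SameCycle.setoid φ), ((len c : ℤ) - 4) =
      (Fintype.card D : ℤ) - 4 * (Fintype.card (Quotient (SameCycle.setoid φ)) : ℤ) := by
    rw [Finset.sum_sub_distrib, Finset.sum_const, Finset.card_univ, ← hsum]
    push_cast
    simp only [nsmul_eq_mul]
    ring
  rw [hf]
  linarith

end Pool.Agent.Helper69.SO.CC
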