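import Pool.Agent.Helper77.SO.St3

set_option autoImplicit false

namespace Pool.Agent.Helper69.SO.EB

open Equiv Equiv.Perm Pool.Agent.Helper35.PM Pool.Agent.Helper77.HY Pool.Agent.Helper77.OF4 Pool.Agent.Helper77.SO

theorem fiber_card {D : Type} [Fintype D] [DecidableEq D] (f : Perm D)
    [DecidableEq (Quotient (SameCycle.setoid f))] (d : D) :
    (Finset.univ.filter (fun a : D => Quotient.mk (SameCycle.setoid f) a =
      Quotient.mk (SameCycle.setoid f) d)).card = Function.minimalPeriod f d := by
  have hpos : 0 < Function.minimalPeriod f d :=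
    Function.minimalPeriod_pos_of_mem_periodicPts (f.injective.mem_periodicPts d)
  have himg : Finset.univ.filter (fun a : D => Quotient.mk (SameCycle.setoid f) a =
      Quotient.mk (SameCycle.setoid f) d) =
      (Finset.range (Function.minimalPeriod f d)).image (fun k => (f ^ k) d) := by
    ext a
    simp only [Finset.mem_filter, Finset.mem_univ, true_and, Finset.mem_image, Finset.mem_range]
    constructor
    · intro h
      have h1 : f.SameCycle a d := Quotient.exact h
      obtain ⟨i, hi⟩ := h1.symm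
      have h2 : f ^ (i % (Function.minimalPeriod (f • ·) d : ℤ)) • d = f ^ i • d :=
        MulAction.zpow_smul_mod_minimalPeriod (a := f) (b := d) i
      have h3 : Function.minimalPeriod (f • ·) d = Function.minimalPeriod f d := rfl
      rw [h3, Perm.smul_def, Perm.smul_def, hi] at h2
      have h4 : 0 ≤ i % (Function.minimalPeriod f d : ℤ) :=
        Int.emod_nonneg _ (by exact_mod_cast hpos.ne')
      have h5 : i % (Function.minimalPeriod f d : ℤ) < (Function.minimalPeriod f d : ℤ) :=
        Int.emod_lt_of_pos _ (by exact_mod_cast hpos)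
      obtain ⟨k, hk⟩ := Int.eq_ofNat_of_zero_le h4
      rw [hk] at h2 h5
      exact ⟨k, by exact_mod_cast h5, by simpa using h2⟩
    · rintro ⟨k, -, rfl⟩
      apply Quotient.sound
      show f.SameCycle ((f ^ k) d) d
      exact (sameCycle_pow_left).2 (SameCycle.refl _ _)
  rw [himg, Finset.card_image_of_injOn, Finset.card_range]
  intro i hi j hj hij
  have hi' : i < Function.minimalPeriod f d := by simpa using hi
  have hj' : j < Function.minimalPeriod f d := by simpa using hj
  have hij' : (f)^[i] d = (f)^[j] d := by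
    rw [Equiv.Perm.iterate_eq_pow, Equiv.Perm.iterate_eq_pow]
    exact hij
  exact Function.iterate_injOn_Iio_minimalPeriod hi' hj' hij'

theorem walk_of {V : Type} (G : SimpleGraph V) (f : ℕ → V) (hf : ∀ k, G.Adj (f k) (f (k + 1)))
    (a n : ℕ) : ∃ p : G.Walk (f a) (f (a + n)), p.length = n ∧
      p.support = (List.range (n + 1)).map (fun k => f (a + k)) ∧
      p.edges = (List.range n).map (fun k => s(f (a + k), f (a + k + 1))) := by
  induction n with
  | zero => exact ⟨SimpleGraph.Walk.nil, by simp⟩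
  | succ n ih =>
    obtain ⟨p, h1, h2, h3⟩ := ih
    refine ⟨p.concat (hf (a + n)), by simp [h1], ?_, ?_⟩
    · rw [SimpleGraph.Walk.support_concat, h2, List.range_succ (n := n + 1)]
      simp
    · rw [SimpleGraph.Walk.edges_concat, h3, List.range_succ (n := n)]
      simp
      exact Or.inl rfl

theorem short_cycle {V : Type} (G : SimpleGraph V) (f : ℕ → V) (hf : ∀ k, G.Adj (f k) (f (k + 1)))
    (h2 : ∀ k, f (k + 2) ≠ f k) (l : ℕ) (hl : 0 < l) (hc : f l = f 0) :
    ∃ (v : V) (c : G.Walk v v), c.IsCycle ∧ c.length ≤ l := by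
  classical
  have hex : ∃ m : ℕ, 0 < m ∧ ∃ i, f i = f (i + m) := ⟨l, hl, 0, by simpa using hc.symm⟩
  have hm := Nat.find_spec hex
  have hmin : ∀ m', 0 < m' → m' < Nat.find hex → ∀ i, f i ≠ f (i + m') := by
    intro m' h1 h3 i h4
    exact Nat.find_min hex h3 ⟨h1, i, h4⟩
  have hle : Nat.find hex ≤ l := Nat.find_min' hex ⟨hl, 0, by simpa using hc.symm⟩
  revert hm hmin hle
  generalize Nat.find hex = m
  rintro ⟨hm0, i, hi⟩ hmin hle
  have hm1 : m ≠ 1 := by
    rintro rfl
    exact (hf i).ne hi
  have hm2 : m ≠ 2 := by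
    rintro rfl
    exact h2 i hi.symm
  obtain ⟨n, rfl⟩ : ∃ n, m = n + 1 := ⟨m - 1, by omega⟩
  obtain ⟨p, p1, p2, p3⟩ := walk_of G f hf (i + 1) n
  have he : f (i + 1 + n) = f i := by
    rw [hi]; congr 1; omega
  refine ⟨f i, SimpleGraph.Walk.cons (hf i) (p.copy rfl he), ?_, ?_⟩
  · rw [SimpleGraph.Walk.cons_isCycle_iff]
    refine ⟨?_, ?_⟩
    · rw [SimpleGraph.Walk.isPath_def, SimpleGraph.Walk.support_copy, p2]
      refine List.Nodup.map_on ?_ List.nodup_range
      intro a ha b hb hab
      rw [List.mem_range] at ha hb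
      by_contra hne
      rcases Nat.lt_or_ge a b with h | h
      · refine hmin (b - a) (by omega) (by omega) (i + 1 + a) ?_
        rw [hab]; congr 1; omega
      · refine hmin (a - b) (by omega) (by omega) (i + 1 + b) ?_
        rw [← hab]; congr 1; omega
    · rw [SimpleGraph.Walk.edges_copy, p3, List.mem_map]
      rintro ⟨k, hk, hke⟩
      rw [List.mem_range] at hk
      rw [Sym2.eq_iff] at hke
      rcases hke with ⟨h3, -⟩ | ⟨h3, h4⟩
      · refine hmin (1 + k) (by omega) (by omega) i ?_
        exact h3.symm.trans (congrArg f (by omega))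
      · rcases Nat.eq_zero_or_pos k with rfl | hk0
        · exact h2 i h4
        · refine hmin k hk0 (by omega) (i + 1) h3.symm
  · rw [SimpleGraph.Walk.length_cons, SimpleGraph.Walk.length_copy, p1]
    exact hle

theorem face_len {V : Type} {G : SimpleGraph V} (R : Rot G) (g : ℕ) [Finite G.Dart]
    (hdeg : ∀ a b, G.Adj a b → ∃ c, G.Adj a c ∧ c ≠ b)
    (hg : ∀ (v : V) (c : G.Walk v v), c.IsCycle → g ≤ c.length) (d : G.Dart) :
    g ≤ Function.minimalPeriod R.φ d := by
  have hpos : 0 < Function.minimalPeriod R.φ d :=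
    Function.minimalPeriod_pos_of_mem_periodicPts (R.φ.injective.mem_periodicPts d)
  have hs : ∀ k, ((R.φ ^ (k + 1)) d) = R.φ ((R.φ ^ k) d) := by
    intro k
    rw [pow_succ']
    rfl
  obtain ⟨v, c, hc, hl⟩ := short_cycle G (fun k => ((R.φ ^ k) d).fst)
    (by
      intro k
      show G.Adj ((R.φ ^ k) d).fst ((R.φ ^ (k + 1)) d).fst
      rw [hs, R.φ_fst]
      exact ((R.φ ^ k) d).adj)
    (by
      intro k
      show ((R.φ ^ (k + 1 + 1)) d).fst ≠ ((R.φ ^ k) d).fst
      rw [hs, hs]
      set a := (R.φ ^ k) d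
      intro h
      rw [R.φ_fst] at h
      have h1 : R.φ a = a.symm := by
        apply SimpleGraph.Dart.ext
        apply Prod.ext
        · exact R.φ_fst a
        · exact h
      have h3 : R.r a.symm = a.symm := h1
      obtain ⟨c, hc1, hc2⟩ := hdeg a.snd a.fst a.adj.symm
      have h4 : R.r.SameCycle a.symm ⟨(a.snd, c), hc1⟩ := R.trans _ _ rfl
      obtain ⟨i, hi⟩ := h4
      have h5 : (R.r ^ i) a.symm = a.symm := by
        exact Equiv.Perm.zpow_apply_eq_self_of_apply_eq_self h3 i
      rw [h5] at hi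
      have h6 := congrArg (fun d : G.Dart => d.toProd.2) hi
      exact hc2 h6.symm)
    (Function.minimalPeriod R.φ d) hpos
    (by
      show ((R.φ ^ (Function.minimalPeriod R.φ d)) d).fst = ((R.φ ^ 0) d).fst
      have h1 : (R.φ ^ (Function.minimalPeriod R.φ d)) d = d := by
        rw [← Equiv.Perm.iterate_eq_pow]
        exact Function.iterate_minimalPeriod
      rw [h1]; rfl)
  exact (hg v c hc).trans hl

theorem eN_one {V : Type} (G : SimpleGraph V) (v : V) : eN G {v} = 0 := by
  unfold eN
  have : {e : Sym2 V | e ∈ G.edgeSet ∧ ∀ w ∈ e, w ∈ ({v} : Finset V)} = ∅ := by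
    ext e
    simp only [Set.mem_ofPred_eq, Set.mem_empty_iff_false, iff_false, not_and]
    induction e using Sym2.ind with
    | _ a b =>
      intro h1 h2
      have ha := h2 a (Sym2.mem_mk_left a b)
      have hb := h2 b (Sym2.mem_mk_right a b)
      rw [Finset.mem_singleton] at ha hb
      subst ha; subst hb
      exact G.loopless.irrefl _ h1
  rw [this, Set.ncard_empty]

theorem main (hE : Pool.Agent.Helper35.PM.StEul) (hSub : Pool.Agent.Helper77.HY.StSub)
    (hCnt : Pool.Agent.Helper77.HY.StCnt) : StEb := by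
  intro V _ G g hg hP hc Y hY
  classical
  obtain ⟨-, hC2, hC3, hC4⟩ := hCnt
  have : Fintype V := Fintype.ofFinite V
  induction hn : Y.card using Nat.strong_induction_on generalizing Y with
  | _ n ih =>
  subst hn
  have hYc := Finset.card_pos.2 hY
  by_cases h1 : Y.card = 1
  · obtain ⟨v, rfl⟩ := Finset.card_eq_one.1 h1
    rw [eN_one, Finset.card_singleton]
    omega
  by_cases hdeg : ∃ v ∈ Y, dg G v (Y.erase v) ≤ 1
  · obtain ⟨v, hv, hd⟩ := hdeg
    have hcard : (Y.erase v).card = Y.card - 1 := Finset.card_erase_of_mem hv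
    have hlt : (Y.erase v).card < Y.card := by omega
    have hne : (Y.erase v).Nonempty := Finset.card_pos.1 (by omega)
    have h2 := ih _ hlt (Y.erase v) hne rfl
    have h3 := hC2 V G (Y.erase v) {v} (by simp)
    have h4 : Y.erase v ∪ {v} = Y := by
      ext x
      simp only [Finset.mem_union, Finset.mem_erase, Finset.mem_singleton]
      constructor
      · rintro (h | rfl)
        · exact h.2
        · exact hv
      · intro h
        by_cases hx : x = v
        · exact Or.inr hx
        · exact Or.inl ⟨hx, h⟩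
    rw [h4, eN_one, Finset.sum_singleton] at h3
    rw [hcard] at h2
    obtain ⟨m, hm⟩ : ∃ m, Y.card = m + 1 := ⟨Y.card - 1, by omega⟩
    obtain ⟨k, rfl⟩ : ∃ k, g = k + 2 := ⟨g - 2, by omega⟩
    have h5 : eN G Y ≤ eN G (Y.erase v) + 1 := by omega
    rw [hm] at h2 ⊢
    have e1 : k + 2 - 2 = k := by omega
    have e2 : m + 1 - 1 = m := by omega
    rw [e1, e2] at h2
    rw [e1]
    calc k * eN G Y ≤ k * (eN G (Y.erase v) + 1) := Nat.mul_le_mul_left k h5
      _ = k * eN G (Y.erase v) + k := by ring
      _ < (k + 2) * m + (k + 2) := by omega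
      _ = (k + 2) * (m + 1) := by ring
  push Not at hdeg
  have hY2 : 2 ≤ Y.card := by omega
  by_cases hconn : (G.induce (Y : Set V)).Connected
  · -- the connected case
    have hPH : Planar (G.induce (Y : Set V)) :=
      hSub V (Y : Set V) G (G.induce (Y : Set V)) Subtype.val hP Subtype.val_injective
        (fun w w' h => h)
    obtain ⟨R⟩ := hPH
    have hcw : Fintype.card (Y : Set V) = Y.card := by simp
    have hEul := hE (Y : Set V) (G.induce (Y : Set V)) R hconn (by rw [hcw]; exact hY2)
    have h4 := hC4 V G Y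
    have h3 := hC3 (Y : Set V) (G.induce (Y : Set V))
    rw [h4] at h3
    rw [← h3, hcw] at hEul
    have hface : ∀ d, g ≤ Function.minimalPeriod R.φ d := by
      intro d
      refine face_len R g ?_ ?_ d
      · intro a b hab
        have h5 : 1 < dg G a.1 (Y.erase a.1) := hdeg a.1 a.2
        obtain ⟨c, hc1, hc2⟩ := Set.exists_ne_of_one_lt_ncard h5 b.1
        refine ⟨⟨c, (Finset.mem_erase.1 hc1.1).2⟩, hc1.2, fun h => hc2 ?_⟩
        exact congrArg Subtype.val h
      · intro v c hcy
        have h6 := hc v.1 (c.map (SimpleGraph.Embedding.induce (Y : Set V)).toHom)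
          ((SimpleGraph.Walk.map_isCycle_iff_of_injective Subtype.val_injective).2 hcy)
        exact h6.trans_eq (SimpleGraph.Walk.length_map _ _)
    have : Fintype (Quotient (SameCycle.setoid R.φ)) := Fintype.ofFinite _
    set len : Quotient (SameCycle.setoid R.φ) → ℕ := fun c =>
      (Finset.univ.filter (fun a : (G.induce (Y : Set V)).Dart =>
        Quotient.mk (SameCycle.setoid R.φ) a = c)).card with hlen
    have hlend : ∀ d, len (Quotient.mk (SameCycle.setoid R.φ) d) =
        Function.minimalPeriod R.φ d := fun d => fiber_card R.φ d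
    have hleng : ∀ c, g ≤ len c := by
      intro c
      obtain ⟨d, rfl⟩ := Quotient.exists_rep c
      have h7 := hface d
      rw [← hlend d] at h7
      exact h7
    have hsum : ∑ c, len c = 2 * (G.induce (Y : Set V)).edgeFinset.card := by
      rw [← (G.induce (Y : Set V)).dart_card_eq_twice_card_edges, ← Finset.card_univ]
      exact (Finset.card_eq_sum_card_fiberwise (fun d _ => Finset.mem_univ _)).symm
    have hf : Nat.card (Quotient (SameCycle.setoid R.φ)) =
        Fintype.card (Quotient (SameCycle.setoid R.φ)) := Nat.card_eq_fintype_card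
    rw [hf] at hEul
    have hge : g * Fintype.card (Quotient (SameCycle.setoid R.φ)) ≤ 2 * eN G Y := by
      rw [h3, ← hsum, mul_comm, ← smul_eq_mul, ← Finset.card_univ]
      exact Finset.card_nsmul_le_sum _ _ _ (fun c _ => hleng c)
    obtain ⟨k, rfl⟩ : ∃ k, g = k + 2 := ⟨g - 2, by omega⟩
    have e1 : k + 2 - 2 = k := by omega
    rw [e1]
    set F := Fintype.card (Quotient (SameCycle.setoid R.φ))
    have hge' : ((k : ℤ) + 2) * (F : ℤ) ≤ 2 * (eN G Y : ℤ) := by exact_mod_cast hge
    have hF : (F : ℤ) = 2 - (Y.card : ℤ) + (eN G Y : ℤ) := by linarith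
    rw [hF] at hge'
    have hk0 : (0 : ℤ) ≤ (k : ℤ) := Int.natCast_nonneg k
    have : (k : ℤ) * (eN G Y : ℤ) < ((k : ℤ) + 2) * (Y.card : ℤ) := by nlinarith
    exact_mod_cast this
  · -- the disconnected case
    have hpre : ¬ (G.induce (Y : Set V)).Preconnected := by
      intro h
      obtain ⟨y, hy⟩ := hY
      exact hconn ((SimpleGraph.connected_iff _).2 ⟨h, ⟨⟨y, hy⟩⟩⟩)
    unfold SimpleGraph.Preconnected at hpre
    push Not at hpre
    obtain ⟨a, b, hab⟩ := hpre
    set A : Finset V := Y.filter (fun y => ∃ h : y ∈ (Y : Set V),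
      (G.induce (Y : Set V)).Reachable a ⟨y, h⟩) with hA
    set B : Finset V := Y \ A with hB
    have hAY : A ⊆ Y := Finset.filter_subset _ _
    have haA : a.1 ∈ A := Finset.mem_filter.2 ⟨a.2, a.2, SimpleGraph.Reachable.refl _⟩
    have hbB : b.1 ∈ B := by
      rw [hB, Finset.mem_sdiff]
      refine ⟨b.2, fun h => hab ?_⟩
      obtain ⟨_, _, h3⟩ := Finset.mem_filter.1 h
      exact h3
    have hun : A ∪ B = Y := Finset.union_sdiff_of_subset hAY
    have hdis : Disjoint A B := Finset.disjoint_sdiff
    have hcards : A.card + B.card = Y.card := by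
      rw [← Finset.card_union_of_disjoint hdis, hun]
    have hA0 : 0 < A.card := Finset.card_pos.2 ⟨_, haA⟩
    have hB0 : 0 < B.card := Finset.card_pos.2 ⟨_, hbB⟩
    have h2 := ih _ (by omega) A ⟨_, haA⟩ rfl
    have h3 := ih _ (by omega) B ⟨_, hbB⟩ rfl
    have h4 := hC2 V G A B hdis
    have h5 : ∑ t ∈ B, dg G t A = 0 := by
      refine Finset.sum_eq_zero (fun t ht => ?_)
      unfold dg
      have : {u : V | u ∈ A ∧ G.Adj t u} = ∅ := by
        ext u
        simp only [Set.mem_ofPred_eq, Set.mem_empty_iff_false, iff_false, not_and]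
        intro hu hadj
        rw [hB, Finset.mem_sdiff] at ht
        refine ht.2 (Finset.mem_filter.2 ⟨ht.1, ht.1, ?_⟩)
        obtain ⟨_, hu1, hu2⟩ := Finset.mem_filter.1 hu
        refine hu2.trans ?_
        exact SimpleGraph.Adj.reachable (show (G.induce (Y : Set V)).Adj ⟨u, hu1⟩ ⟨t, ht.1⟩ from hadj.symm)
      rw [this, Set.ncard_empty]
    rw [hun, h5, add_zero] at h4
    rw [h4, ← hcards, mul_add, mul_add]
    omega

end Pool.Agent.Helper69.SO.EB
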